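import Pool.Agent.C2.Stmts

/-!
# Squad C2M (MP_503f8d_mp), row MTT: the matrix tree theorem for Psi and Phi
-/

set_option autoImplicit false

namespace Pool.Agent.C2.H97

open Matrix Finset Pool.Agent.C2

theorem det_inst {k : Type} [CommRing k] {n : Type} (i1 i2 : Fintype n) (d1 d2 : DecidableEq n)
    (M : Matrix n n k) : @Matrix.det n d1 i1 k _ M = @Matrix.det n d2 i2 k _ M := by
  rw [Subsingleton.elim i1 i2, Subsingleton.elim d1 d2]

theorem det_add_diagonal {k : Type} [CommRing k] {n : Type} [Fintype n] [DecidableEq n]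
    (N : Matrix n n k) (d : n → k) :
    (N + diagonal d).det = ∑ S : Finset n, (∏ i ∈ Sᶜ, d i) *
      (toSquareBlockProp N (fun i => i ∈ S)).det := by
  classical
  have h := (detRowAlternating (R := k) (n := n)).toMultilinearMap.map_add_univ N (diagonal d)
  have h1 : (N + diagonal d).det = ∑ s : Finset n,
      Matrix.det (s.piecewise N (diagonal d) : Matrix n n k) := h
  rw [h1]
  refine Finset.sum_congr rfl fun S _ => ?_
  rw [twoBlockTriangular_det _ (fun i => i ∈ S), mul_comm]
  · have e1 : (toSquareBlockProp (S.piecewise N (diagonal d) : Matrix n n k) fun i => ¬ i ∈ S)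
          = diagonal (fun i : {x // ¬ x ∈ S} => d i.1) := by
      ext i j
      simp only [toSquareBlockProp_def, of_apply]
      rw [Finset.piecewise_eq_of_notMem _ _ _ i.2]
      by_cases hij : i = j
      · subst hij; simp
      · rw [diagonal_apply_ne _ hij, diagonal_apply_ne]
        intro h; exact hij (Subtype.ext h)
    have e2 : (toSquareBlockProp (S.piecewise N (diagonal d) : Matrix n n k) fun i => i ∈ S)
          = toSquareBlockProp N (fun i => i ∈ S) := by
      ext i j
      simp only [toSquareBlockProp_def, of_apply]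
      rw [Finset.piecewise_eq_of_mem _ _ _ i.2]
    rw [e1, e2, det_diagonal]
    have e3 : ∏ i : {x // ¬ x ∈ S}, d i.1 = ∏ i ∈ Sᶜ, d i := by
      rw [← Finset.prod_subtype (s := Sᶜ) (f := d)]
      intro x; simp
    rw [e3]
    exact congrArg _ (det_inst _ _ _ _ _)
  · intro i hi j hj
    rw [Finset.piecewise_eq_of_notMem _ _ _ hi, diagonal_apply_ne]
    rintro rfl; exact hi hj

theorem anti_zero {F : Type} [Field F] {S R : Type} [Fintype S] [DecidableEq S] [Fintype R]
    [DecidableEq R] (P : Matrix S R F) (Q : Matrix R S F) (h : Fintype.card S ≠ Fintype.card R) :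
    (fromBlocks 0 P Q 0).det = 0 := by
  rw [← Matrix.exists_mulVec_eq_zero_iff]
  rcases lt_or_gt_of_ne h with h | h
  · have h1 : LinearMap.ker P.mulVecLin ≠ ⊥ := by
      apply LinearMap.ker_ne_bot_of_finrank_lt
      simpa using h
    obtain ⟨u, hu, hu0⟩ := (Submodule.ne_bot_iff _).1 h1
    refine ⟨Sum.elim 0 u, ?_, ?_⟩
    · intro h2
      apply hu0
      funext r
      exact congrFun h2 (Sum.inr r)
    · rw [Matrix.fromBlocks_mulVec]
      have h3 : P.mulVec u = 0 := hu
      have h4 : (Sum.elim (0 : S → F) u) ∘ Sum.inr = u := rfl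
      have h5 : (Sum.elim (0 : S → F) u) ∘ Sum.inl = 0 := rfl
      rw [h4, h5, h3]
      funext x
      cases x <;> simp
  · have h1 : LinearMap.ker Q.mulVecLin ≠ ⊥ := by
      apply LinearMap.ker_ne_bot_of_finrank_lt
      simpa using h
    obtain ⟨u, hu, hu0⟩ := (Submodule.ne_bot_iff _).1 h1
    refine ⟨Sum.elim u 0, ?_, ?_⟩
    · intro h2
      apply hu0
      funext r
      exact congrFun h2 (Sum.inl r)
    · rw [Matrix.fromBlocks_mulVec]
      have h3 : Q.mulVec u = 0 := hu
      have h4 : (Sum.elim u (0 : R → F)) ∘ Sum.inr = 0 := rfl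
      have h5 : (Sum.elim u (0 : R → F)) ∘ Sum.inl = u := rfl
      rw [h4, h5, h3]
      funext x
      cases x <;> simp

/-- the sign -/
noncomputable def sg (F R : Type) [Field F] [Fintype R] [DecidableEq R] : F :=
  (fromBlocks 0 1 1 0 : Matrix (R ⊕ R) (R ⊕ R) F).det

theorem sg_ne (F R : Type) [Field F] [Fintype R] [DecidableEq R] : sg F R ≠ 0 := by
  intro h
  have h1 : (fromBlocks 0 1 1 0 : Matrix (R ⊕ R) (R ⊕ R) F) * fromBlocks 0 1 1 0 = 1 := by
    rw [fromBlocks_multiply]; simp
  have h2 := congrArg Matrix.det h1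
  rw [det_mul] at h2
  have h3 : (fromBlocks 0 1 1 0 : Matrix (R ⊕ R) (R ⊕ R) F).det = 0 := h
  rw [h3] at h2
  simp at h2

theorem anti_sq {F : Type} [Field F] {R : Type} [Fintype R] [DecidableEq R]
    (P Q : Matrix R R F) : (fromBlocks 0 P Q 0).det = P.det * Q.det * sg F R := by
  have h1 : (fromBlocks 0 P Q 0 : Matrix (R ⊕ R) (R ⊕ R) F) =
      fromBlocks P 0 0 Q * fromBlocks 0 1 1 0 := by
    rw [fromBlocks_multiply]; simp
  rw [h1, det_mul, det_fromBlocks_zero₂₁]
  rfl

theorem anti_eq {F : Type} [Field F] {S R : Type} [Fintype S] [DecidableEq S] [Fintype R]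
    [DecidableEq R] (P : Matrix S R F) (Q : Matrix R S F) (σ : R ≃ S) :
    (fromBlocks 0 P Q 0).det =
      (P.submatrix σ id).det * (Q.submatrix id σ).det * sg F R := by
  rw [← anti_sq]
  rw [← Matrix.det_submatrix_equiv_self (Equiv.sumCongr σ (Equiv.refl R))]
  congr 1
  ext i j
  rcases i with i | i <;> rcases j with j | j <;> simp

/-- the embedding of S + R -/
def emb {E R : Type} [Fintype R] (S : Finset E) :
    {e // e ∈ S} ⊕ R → {x : E ⊕ R // x ∈ S.disjSum (univ : Finset R)} :=
  Sum.elim (fun i => ⟨Sum.inl i.1, Finset.inl_mem_disjSum.2 i.2⟩)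
    (fun r => ⟨Sum.inr r, Finset.inr_mem_disjSum.2 (Finset.mem_univ r)⟩)

theorem emb_bij {E R : Type} [Fintype R] (S : Finset E) :
    Function.Bijective (emb (R := R) S) := by
  constructor
  · intro a b h
    have h' := congrArg Subtype.val h
    rcases a with a | a <;> rcases b with b | b <;> simp [emb] at h'
    · exact congrArg _ h'
    · exact congrArg _ h'
  · rintro ⟨x, hx⟩
    rcases x with x | x
    · exact ⟨Sum.inl ⟨x, Finset.inl_mem_disjSum.1 hx⟩, rfl⟩
    · exact ⟨Sum.inr x, rfl⟩

/-- the weighted bordered matrix without its diagonal -/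
def Nm {F : Type} [Field F] {E R : Type} (β : E → F) (B : Matrix R E F) :
    Matrix (E ⊕ R) (E ⊕ R) F :=
  fromBlocks 0 (of fun e r => β e * B r e) (-B) 0

theorem block_det {F : Type} [Field F] {E R : Type} [Fintype E] [DecidableEq E] [Fintype R]
    [DecidableEq R] (β : E → F) (B : Matrix R E F) (S : Finset E) :
    (toSquareBlockProp (Nm β B) (fun i => i ∈ S.disjSum (univ : Finset R))).det =
      (fromBlocks 0 (of fun (i : {e // e ∈ S}) r => β i.1 * B r i.1)
        (of fun r (i : {e // e ∈ S}) => - B r i.1) 0).det := by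
  rw [← Matrix.det_submatrix_equiv_self (Equiv.ofBijective _ (emb_bij (R := R) S))]
  congr 1
  ext i j
  rcases i with i | i <;> rcases j with j | j <;>
    simp [emb, Nm, toSquareBlockProp_def]

theorem block_zero {F : Type} [Field F] {E R : Type} [Fintype E] [DecidableEq E] [Fintype R]
    [DecidableEq R] (β : E → F) (B : Matrix R E F) (S : Finset E)
    (h : S.card ≠ Fintype.card R) :
    (toSquareBlockProp (Nm β B) (fun i => i ∈ S.disjSum (univ : Finset R))).det = 0 := by
  rw [block_det]
  apply anti_zero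
  simpa using h

theorem block_val {F : Type} [Field F] {E R : Type} [Fintype E] [DecidableEq E] [Fintype R]
    [DecidableEq R] (β : E → F) (B : Matrix R E F) (S : Finset E) (σ : R ≃ {e // e ∈ S}) :
    (toSquareBlockProp (Nm β B) (fun i => i ∈ S.disjSum (univ : Finset R))).det =
      (∏ e ∈ S, β e) * (of fun r i => B r (σ i).1 : Matrix R R F).det ^ 2 *
        ((-1) ^ Fintype.card R * sg F R) := by
  rw [block_det, anti_eq _ _ σ]
  have e1 : ((of fun (i : {e // e ∈ S}) r => β i.1 * B r i.1 : Matrix {e // e ∈ S} R F).submatrix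
      σ id).det = (∏ e ∈ S, β e) * (of fun r i => B r (σ i).1 : Matrix R R F).det := by
    have h1 : ((of fun (i : {e // e ∈ S}) r => β i.1 * B r i.1 : Matrix {e // e ∈ S} R F).submatrix
      σ id) = of fun i r => (fun i => β (σ i).1) i *
        (of fun r i => B r (σ i).1 : Matrix R R F).transpose i r := by
      ext i r; simp
    rw [h1, det_mul_column, det_transpose]
    congr 1
    rw [Equiv.prod_comp σ (fun i => β i.1)]
    exact Finset.prod_coe_sort S β
  have e2 : ((of fun r (i : {e // e ∈ S}) => - B r i.1 : Matrix R {e // e ∈ S} F).submatrix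
      id σ).det = (-1) ^ Fintype.card R * (of fun r i => B r (σ i).1 : Matrix R R F).det := by
    rw [← det_neg]
    congr 1
  rw [e1, e2]
  ring

section Graph

variable {V E : Type} [Fintype V] [DecidableEq V] [Fintype E] [DecidableEq E]

/-- the reduced incidence matrix -/
def Bm (K : Type) [Ring K] (s t : E → V) (r0 : V) : Matrix {v : V // v ≠ r0} E K :=
  of fun r e => (if t e = r.1 then 1 else 0) - (if s e = r.1 then 1 else 0)

/-- extension by zero -/
def ex {K : Type} [Ring K] (r0 : V) (v : {v : V // v ≠ r0} → K) (x : V) : K :=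
  if h : x ≠ r0 then v ⟨x, h⟩ else 0

theorem ex_r0 {K : Type} [Ring K] (r0 : V) (v : {v : V // v ≠ r0} → K) : ex r0 v r0 = 0 := by
  simp [ex]

theorem ex_val {K : Type} [Ring K] (r0 : V) (v : {v : V // v ≠ r0} → K) (r : {v : V // v ≠ r0}) :
    ex r0 v r.1 = v r := by
  simp [ex, r.2]

theorem sum_ite_ex {K : Type} [Ring K] (r0 : V) (v : {v : V // v ≠ r0} → K) (x : V) :
    ∑ r : {v : V // v ≠ r0}, v r * (if x = r.1 then 1 else 0) = ex r0 v x := by
  by_cases h : x = r0
  · subst h
    rw [ex_r0]
    refine Finset.sum_eq_zero fun r _ => ?_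
    rw [if_neg (fun h => r.2 h.symm), mul_zero]
  · rw [Finset.sum_eq_single (⟨x, h⟩ : {v : V // v ≠ r0})]
    · simp [ex, h]
    · intro r _ hr
      rw [if_neg, mul_zero]
      intro h2; exact hr (Subtype.ext h2.symm)
    · intro h2; exact absurd (Finset.mem_univ _) h2

omit [Fintype E] [DecidableEq E] in
theorem sum_Bm {K : Type} [Ring K] (s t : E → V) (r0 : V) (v : {v : V // v ≠ r0} → K) (e : E) :
    ∑ r, v r * Bm K s t r0 r e = ex r0 v (t e) - ex r0 v (s e) := by
  simp only [Bm, of_apply, mul_sub]
  rw [Finset.sum_sub_distrib, sum_ite_ex, sum_ite_ex]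

omit [Fintype V] [DecidableEq V] [Fintype E] [DecidableEq E] in
theorem step_symm (s t : E → V) (S : Finset E) {x y : V} (h : Step s t S x y) :
    Step s t S y x := by
  obtain ⟨e, he, h⟩ := h
  exact ⟨e, he, h.symm⟩

omit [Fintype V] [DecidableEq V] [Fintype E] [DecidableEq E] in
theorem rtg_symm (s t : E → V) (S : Finset E) {x y : V}
    (h : Relation.ReflTransGen (Step s t S) x y) : Relation.ReflTransGen (Step s t S) y x := by
  induction h with
  | refl => exact Relation.ReflTransGen.refl
  | tail _ h2 ih => exact Relation.ReflTransGen.head (step_symm s t S h2) ih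

omit [Fintype V] [DecidableEq V] [Fintype E] [DecidableEq E] in
theorem const_of_rtg {K : Type} (s t : E → V) (S : Finset E) (u : V → K)
    (hu : ∀ e ∈ S, u (t e) = u (s e)) {x y : V}
    (h : Relation.ReflTransGen (Step s t S) x y) : u x = u y := by
  induction h with
  | refl => rfl
  | tail _ h2 ih =>
    obtain ⟨e, he, h3 | h3⟩ := h2
    · rw [ih, ← h3.1, ← h3.2, hu e he]
    · rw [ih, ← h3.1, ← h3.2, hu e he]

theorem det_ne_iff (K : Type) [Field K] (s t : E → V) (r0 : V) (S : Finset E)
    (σ : {v : V // v ≠ r0} ≃ {e // e ∈ S}) :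
    (of fun r i => Bm K s t r0 r (σ i).1 : Matrix {v : V // v ≠ r0} {v : V // v ≠ r0} K).det ≠ 0 ↔
      Conn s t S := by
  classical
  rw [← not_iff_not, not_not, ← Matrix.exists_vecMul_eq_zero_iff]
  constructor
  · rintro ⟨v, hv0, hv⟩ hc
    apply hv0
    have h1 : ∀ e ∈ S, ex r0 v (t e) = ex r0 v (s e) := by
      intro e he
      have h2 := congrFun hv (σ.symm ⟨e, he⟩)
      simp only [Matrix.vecMul, dotProduct, of_apply, Equiv.apply_symm_apply,
        Pi.zero_apply] at h2
      rw [sum_Bm] at h2
      exact sub_eq_zero.1 h2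
    funext r
    rw [← ex_val r0 v r, ← const_of_rtg s t S _ h1 (hc r0 r.1), ex_r0]
    rfl
  · intro hc
    have h1 : ∃ x, ¬ Relation.ReflTransGen (Step s t S) r0 x := by
      by_contra h
      push Not at h
      apply hc
      intro x y
      exact (rtg_symm s t S (h x)).trans (h y)
    obtain ⟨x, hx⟩ := h1
    let v : {v : V // v ≠ r0} → K := fun r =>
      if Relation.ReflTransGen (Step s t S) r0 r.1 then 0 else 1
    have hx0 : x ≠ r0 := by
      rintro rfl; exact hx Relation.ReflTransGen.refl
    have hex : ∀ y, ex r0 v y = if Relation.ReflTransGen (Step s t S) r0 y then 0 else 1 := by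
      intro y
      by_cases hy : y = r0
      · subst hy
        rw [ex_r0, if_pos Relation.ReflTransGen.refl]
      · simp [ex, hy, v]
    refine ⟨v, ?_, ?_⟩
    · intro h
      have h2 := congrFun h ⟨x, hx0⟩
      simp [v, hx] at h2
    · funext i
      simp only [Matrix.vecMul, dotProduct, of_apply, Pi.zero_apply]
      rw [sum_Bm, hex, hex]
      have h3 : Relation.ReflTransGen (Step s t S) r0 (t (σ i).1) ↔
          Relation.ReflTransGen (Step s t S) r0 (s (σ i).1) := by
        constructor
        · intro h; exact h.tail ⟨(σ i).1, (σ i).2, Or.inr ⟨rfl, rfl⟩⟩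
        · intro h; exact h.tail ⟨(σ i).1, (σ i).2, Or.inl ⟨rfl, rfl⟩⟩
      by_cases h4 : Relation.ReflTransGen (Step s t S) r0 (s (σ i).1)
      · rw [if_pos h4, if_pos (h3.2 h4), sub_zero]
      · rw [if_neg h4, if_neg (fun h => h4 (h3.1 h)), sub_self]

omit [Fintype E] [DecidableEq E] in
theorem map_det (K : Type) [Field K] (s t : E → V) (r0 : V) (S : Finset E)
    (σ : {v : V // v ≠ r0} ≃ {e // e ∈ S}) :
    (of fun r i => Bm K s t r0 r (σ i).1 : Matrix {v : V // v ≠ r0} {v : V // v ≠ r0} K).det =
    ((of fun r i => Bm ℤ s t r0 r (σ i).1 :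
      Matrix {v : V // v ≠ r0} {v : V // v ≠ r0} ℤ).det : K) := by
  have h := (Int.castRingHom K).map_det (of fun r i => Bm ℤ s t r0 r (σ i).1 :
      Matrix {v : V // v ≠ r0} {v : V // v ≠ r0} ℤ)
  refine Eq.trans ?_ h.symm
  congr 1
  ext i j
  simp [Bm]

theorem minor_sq (K : Type) [Field K] (s t : E → V) (r0 : V) (S : Finset E)
    (σ : {v : V // v ≠ r0} ≃ {e // e ∈ S}) [Decidable (Conn s t S)] :
    (of fun r i => Bm K s t r0 r (σ i).1 : Matrix {v : V // v ≠ r0} {v : V // v ≠ r0} K).det ^ 2 =
      if Conn s t S then 1 else 0 := by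
  by_cases hc : Conn s t S
  · rw [if_pos hc, map_det]
    set d := (of fun r i => Bm ℤ s t r0 r (σ i).1 :
      Matrix {v : V // v ≠ r0} {v : V // v ≠ r0} ℤ).det with hd
    have h1 : d.natAbs = 1 := by
      by_contra hne
      obtain ⟨p, hp, hpd⟩ := Nat.exists_prime_and_dvd hne
      have := Fact.mk hp
      have h2 := (det_ne_iff (ZMod p) s t r0 S σ).2 hc
      apply h2
      rw [map_det, ← hd]
      rw [ZMod.intCast_zmod_eq_zero_iff_dvd]
      exact Int.natCast_dvd.2 hpd
    have h2 : d ^ 2 = 1 := by
      rw [← Int.natAbs_sq, h1]; rfl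
    have h3 : ((d ^ 2 : ℤ) : K) = 1 := by rw [h2]; simp
    rw [← h3]
    push_cast
    rfl
  · rw [if_neg hc]
    have h1 := (det_ne_iff K s t r0 S σ).not.2 hc
    rw [not_not] at h1
    rw [h1]
    simp

theorem card_ne (r0 : V) : Fintype.card {v : V // v ≠ r0} + 1 = Fintype.card V := by
  have h1 : Fintype.card {v : V // v ≠ r0} = (univ.erase r0 : Finset V).card := by
    rw [Fintype.card_subtype]
    congr 1
    ext x; simp
  rw [h1, Finset.card_erase_of_mem (Finset.mem_univ _), Finset.card_univ]
  have : 0 < Fintype.card V := Fintype.card_pos_iff.2 ⟨r0⟩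
  omega

open Classical in
theorem det_formula (F : Type) [Field F] (s t : E → V) (r0 : V) (α β : E → F) :
    (Nm β (Bm F s t r0) + diagonal (Sum.elim α 0)).det =
      (∑ T ∈ (univ : Finset (Finset E)).filter (fun T => IsSpTree s t T),
        (∏ e ∈ univ \ T, α e) * ∏ e ∈ T, β e) *
      ((-1) ^ Fintype.card {v : V // v ≠ r0} * sg F {v : V // v ≠ r0}) := by
  rw [det_add_diagonal]
  rw [← Finset.sum_of_injOn (fun S : Finset E => S.disjSum (univ : Finset {v : V // v ≠ r0}))
    (s := univ) (f := fun S : Finset E => (∏ e ∈ univ \ S, α e) *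
      (toSquareBlockProp (Nm β (Bm F s t r0))
        (fun i => i ∈ S.disjSum (univ : Finset {v : V // v ≠ r0}))).det)]
  · rw [Finset.sum_filter, Finset.sum_mul]
    refine Finset.sum_congr rfl fun S _ => ?_
    by_cases hcard : S.card = Fintype.card {v : V // v ≠ r0}
    · have σ : {v : V // v ≠ r0} ≃ {e // e ∈ S} := Fintype.equivOfCardEq (by simp [hcard])
      rw [block_val _ _ _ σ, minor_sq]
      have h1 : IsSpTree s t S ↔ Conn s t S := by
        unfold IsSpTree
        rw [hcard, card_ne]
        simp
      by_cases hc : Conn s t S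
      · rw [if_pos hc, if_pos (h1.2 hc)]
        ring
      · rw [if_neg hc, if_neg (fun h => hc (h1.1 h))]
        ring
    · rw [block_zero _ _ _ hcard, if_neg, mul_zero, zero_mul]
      intro h
      apply hcard
      have h2 := h.1
      rw [← card_ne r0] at h2
      omega
  · intro a _ b _ hab
    ext e
    have h1 := congrArg (fun X : Finset (E ⊕ {v : V // v ≠ r0}) => Sum.inl e ∈ X) hab
    simpa using h1
  · intro a _; simp
  · intro S' _ hS'
    have h1 : ∃ r : {v : V // v ≠ r0}, Sum.inr r ∉ S' := by
      by_contra h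
      push Not at h
      apply hS'
      refine ⟨(univ : Finset E).filter (fun e => Sum.inl e ∈ S'), by simp, ?_⟩
      ext x
      rcases x with x | x
      · simp
      · simp [h x]
    obtain ⟨r, hr⟩ := h1
    have h2 : ∏ i ∈ S'ᶜ, Sum.elim α (0 : {v : V // v ≠ r0} → F) i = 0 := by
      apply Finset.prod_eq_zero (Finset.mem_compl.2 hr)
      rfl
    rw [h2, zero_mul]
  · intro S _
    congr 1
    have h1 : (S.disjSum (univ : Finset {v : V // v ≠ r0}))ᶜ = (univ \ S).map
        Function.Embedding.inl := by
      ext x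
      rcases x with x | x <;> simp
    rw [h1, Finset.prod_map]
    rfl

theorem ker_iff (F : Type) [Field F] (s t : E → V) (r0 : V) (α β : E → F) :
    (Nm β (Bm F s t r0) + diagonal (Sum.elim α 0)).det = 0 ↔
      ∃ (p : E → F) (v : {v : V // v ≠ r0} → F), (p ≠ 0 ∨ v ≠ 0) ∧
        (∀ e, α e * p e + β e * (ex r0 v (t e) - ex r0 v (s e)) = 0) ∧
        ∀ r, ∑ e, Bm F s t r0 r e * p e = 0 := by
  have h0 : Nm β (Bm F s t r0) + diagonal (Sum.elim α 0) =
      fromBlocks (diagonal α) (of fun e r => β e * Bm F s t r0 r e) (-Bm F s t r0) 0 := by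
    ext i j
    rcases i with i | i <;> rcases j with j | j <;> simp [Nm, diagonal_apply]
  rw [h0, ← Matrix.exists_mulVec_eq_zero_iff]
  constructor
  · rintro ⟨w, hw0, hw⟩
    rw [Matrix.fromBlocks_mulVec] at hw
    refine ⟨w ∘ Sum.inl, w ∘ Sum.inr, ?_, ?_, ?_⟩
    · by_contra h
      push Not at h
      apply hw0
      funext x
      rcases x with x | x
      · exact congrFun h.1 x
      · exact congrFun h.2 x
    · intro e
      have h1 := congrFun hw (Sum.inl e)
      simp only [Sum.elim_inl, Pi.add_apply, mulVec_diagonal, Pi.zero_apply] at h1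
      rw [← h1]
      congr 1
      simp only [mulVec, dotProduct, of_apply]
      rw [← sum_Bm, Finset.mul_sum]
      exact Finset.sum_congr rfl fun r _ => by ring
    · intro r
      have h1 := congrFun hw (Sum.inr r)
      simp only [Sum.elim_inr, Pi.add_apply, Pi.zero_apply, zero_mulVec, add_zero, mulVec,
        dotProduct, Matrix.neg_apply, neg_mul, Finset.sum_neg_distrib, neg_eq_zero] at h1
      exact h1
  · rintro ⟨p, v, hpv, h1, h2⟩
    refine ⟨Sum.elim p v, ?_, ?_⟩
    · intro h
      rcases hpv with hp | hv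
      · apply hp; funext e; exact congrFun h (Sum.inl e)
      · apply hv; funext r; exact congrFun h (Sum.inr r)
    · rw [Matrix.fromBlocks_mulVec]
      have h4 : (Sum.elim p v) ∘ Sum.inr = v := rfl
      have h5 : (Sum.elim p v) ∘ Sum.inl = p := rfl
      rw [h4, h5]
      funext x
      rcases x with x | x
      · simp only [Sum.elim_inl, Pi.add_apply, mulVec_diagonal, Pi.zero_apply]
        rw [← h1 x]
        congr 1
        simp only [mulVec, dotProduct, of_apply]
        rw [← sum_Bm, Finset.mul_sum]
        exact Finset.sum_congr rfl fun r _ => by ring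
      · simp only [Sum.elim_inr, Pi.add_apply, Pi.zero_apply, zero_mulVec, add_zero, mulVec,
          dotProduct, Matrix.neg_apply, neg_mul, Finset.sum_neg_distrib, neg_eq_zero]
        exact h2 x

omit [Fintype E] [DecidableEq E] in
theorem ex_sub {F : Type} [Ring F] (r0 : V) (u : V → F) (x : V) :
    ex r0 (fun r => u r.1 - u r0) x = u x - u r0 := by
  by_cases h : x = r0
  · subst h; rw [ex_r0, sub_self]
  · simp [ex, h]

omit [DecidableEq E] in
theorem mem_perp_cut (F : Type) [Field F] (s t : E → V) (r0 : V) (p : E → F) :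
    p ∈ perp (cut F s t) ↔ ∀ r, ∑ e, Bm F s t r0 r e * p e = 0 := by
  constructor
  · intro h r
    have h1 : (fun e => (if t e = r.1 then (1 : F) else 0) - (if s e = r.1 then 1 else 0)) ∈
        cut F s t := by
      refine ⟨fun x => if x = r.1 then 1 else 0, ?_⟩
      funext e
      simp
    have h2 := h _ h1
    rw [← h2]
    refine Finset.sum_congr rfl fun e _ => ?_
    simp only [Bm, of_apply]
    ring
  · rintro h y ⟨u, rfl⟩
    have h1 : ∀ e, (LinearMap.pi (fun e => (LinearMap.proj (t e) : (V → F) →ₗ[F] F) -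
        LinearMap.proj (s e))) u e = ex r0 (fun r => u r.1 - u r0) (t e) -
          ex r0 (fun r => u r.1 - u r0) (s e) := by
      intro e
      rw [ex_sub, ex_sub]
      simp
    simp only [h1, ← sum_Bm]
    simp only [Finset.mul_sum]
    rw [Finset.sum_comm]
    refine Finset.sum_eq_zero fun r _ => ?_
    have h2 : ∀ e, p e * ((u r.1 - u r0) * Bm F s t r0 r e) =
        (u r.1 - u r0) * (Bm F s t r0 r e * p e) := fun e => by ring
    simp only [h2]
    rw [← Finset.mul_sum, h r, mul_zero]

omit [Fintype E] [DecidableEq E] in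
theorem ex_cut (F : Type) [Field F] (s t : E → V) (r0 : V) (v : {v : V // v ≠ r0} → F) :
    (fun e => ex r0 v (t e) - ex r0 v (s e)) ∈ cut F s t := by
  refine ⟨ex r0 v, ?_⟩
  funext e
  simp

omit [DecidableEq E] in
theorem ex_zero (F : Type) [Field F] (s t : E → V) (r0 : V) (hc : Conn s t univ)
    (v : {v : V // v ≠ r0} → F) (h : ∀ e, ex r0 v (t e) - ex r0 v (s e) = 0) : v = 0 := by
  funext r
  rw [← ex_val r0 v r, ← const_of_rtg s t univ (ex r0 v)
    (fun e _ => sub_eq_zero.1 (h e)) (hc r0 r.1), ex_r0]
  rfl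

end Graph

/-- **MTT** -/
theorem mtt : MttStmt := by
  intro F _ V E _ _ _ s t b hc
  classical
  let r0 : V := Classical.arbitrary V
  have hunit : ((-1) ^ Fintype.card {v : V // v ≠ r0} * sg F {v : V // v ≠ r0} : F) ≠ 0 :=
    mul_ne_zero (pow_ne_zero _ (neg_ne_zero.2 one_ne_zero)) (sg_ne _ _)
  constructor
  · have h1 := det_formula F s t r0 b (fun _ => 1)
    have h2 : (∑ T ∈ (univ : Finset (Finset E)).filter (fun T => IsSpTree s t T),
        (∏ e ∈ univ \ T, b e) * ∏ e ∈ T, (fun _ => (1 : F)) e) = Psi s t b := by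
      unfold Psi
      simp
    rw [h2] at h1
    have h3 : Psi s t b = 0 ↔
        (Nm (fun _ => (1 : F)) (Bm F s t r0) + diagonal (Sum.elim b 0)).det = 0 := by
      rw [h1]
      simp only [mul_eq_zero]
      constructor
      · intro h; exact Or.inl h
      · rintro (h | h)
        · exact h
        · exact absurd (mul_eq_zero.2 h) hunit
    rw [h3, ker_iff]
    constructor
    · rintro ⟨p, v, hpv, h4, h5⟩
      refine ⟨p, (mem_perp_cut F s t r0 p).2 h5, ?_, ?_⟩
      · rintro rfl
        rcases hpv with h | h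
        · exact h rfl
        · apply h
          apply ex_zero F s t r0 hc
          intro e
          have := h4 e
          simpa using this
      · have h6 : (fun e => b e * p e) = - (fun e => ex r0 v (t e) - ex r0 v (s e)) := by
          funext e
          have := h4 e
          rw [one_mul] at this
          simp only [Pi.neg_apply]
          exact eq_neg_of_add_eq_zero_left this
        rw [h6]
        exact Submodule.neg_mem _ (ex_cut F s t r0 v)
    · rintro ⟨p, hp, hp0, u, hu⟩
      refine ⟨p, fun r => - (u r.1 - u r0), Or.inl hp0, ?_, (mem_perp_cut F s t r0 p).1 hp⟩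
      intro e
      have h6 := congrFun hu e
      simp only [LinearMap.pi_apply, LinearMap.sub_apply, LinearMap.proj_apply] at h6
      have h7 : ∀ x, ex r0 (fun r => - (u r.1 - u r0)) x = - (u x - u r0) := by
        intro x
        have := ex_sub r0 (fun x => - u x) x
        rw [show - (u x - u r0) = - u x - - u r0 by ring, ← this]
        congr 1
        funext r
        ring
      rw [h7, h7, ← h6]
      ring
  · have h1 := det_formula F s t r0 (fun _ => 1) b
    have h2 : (∑ T ∈ (univ : Finset (Finset E)).filter (fun T => IsSpTree s t T),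
        (∏ e ∈ univ \ T, (fun _ => (1 : F)) e) * ∏ e ∈ T, b e) = Phi s t b := by
      unfold Phi
      simp
    rw [h2] at h1
    have h3 : Phi s t b = 0 ↔
        (Nm b (Bm F s t r0) + diagonal (Sum.elim (fun _ => (1 : F)) 0)).det = 0 := by
      rw [h1]
      simp only [mul_eq_zero]
      constructor
      · intro h; exact Or.inl h
      · rintro (h | h)
        · exact h
        · exact absurd (mul_eq_zero.2 h) hunit
    rw [h3, ker_iff]
    constructor
    · rintro ⟨p, v, hpv, h4, h5⟩
      have h6 : ∀ e, p e = - (b e * (ex r0 v (t e) - ex r0 v (s e))) := by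
        intro e
        have := h4 e
        rw [one_mul] at this
        exact eq_neg_of_add_eq_zero_left this
      refine ⟨fun e => ex r0 v (t e) - ex r0 v (s e), ex_cut F s t r0 v, ?_, ?_⟩
      · intro h
        have hz : ∀ e, ex r0 v (t e) - ex r0 v (s e) = 0 := fun e => congrFun h e
        have hv := ex_zero F s t r0 hc v hz
        rcases hpv with h | h
        · apply h
          funext e
          rw [h6 e, hz e]
          simp
        · exact h hv
      · have h7 : (fun e => b e * (ex r0 v (t e) - ex r0 v (s e))) = - p := by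
          funext e
          rw [Pi.neg_apply, h6 e, neg_neg]
        rw [h7]
        exact Submodule.neg_mem _ ((mem_perp_cut F s t r0 p).2 h5)
    · rintro ⟨y, ⟨u, hu⟩, hy0, hy⟩
      have hyu : ∀ e, y e = u (t e) - u (s e) := by
        intro e
        rw [← hu]
        simp
      refine ⟨fun e => - (b e * y e), fun r => u r.1 - u r0, ?_, ?_, ?_⟩
      · by_cases hv : (fun r : {v : V // v ≠ r0} => u r.1 - u r0) = 0
        · exfalso
          apply hy0
          funext e
          have h8 : ∀ x, u x - u r0 = 0 := by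
            intro x
            rw [← ex_sub r0 u x, hv]
            by_cases h : x = r0
            · subst h; rw [ex_r0]
            · simp [ex, h]
          rw [hyu e, ← sub_sub_sub_cancel_right _ _ (u r0), h8, h8]
          simp
        · exact Or.inr hv
      · intro e
        rw [ex_sub, ex_sub]
        show 1 * (- (b e * y e)) + b e * (u (t e) - u r0 - (u (s e) - u r0)) = 0
        rw [hyu e]
        ring
      · apply (mem_perp_cut F s t r0 _).1
        have h9 : (fun e => - (b e * y e)) = - (fun e => b e * y e) := by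
          funext e; rfl
        rw [h9]
        exact Submodule.neg_mem _ hy

end Pool.Agent.C2.H97
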