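import Pool.Agent.Helper57_C2.Stmts
import Pool.Agent.Helper97_K9.NZR
import Pool.Agent.Helper20_PP.MovCore
import Pool.Agent.Helper57_K9.Asm

/-!
# Squad C2, module FUS: the stabiliser `T` controls the fusion of the pairs `(w, β_w)`
-/

open scoped BigOperators

noncomputable section

namespace Pool.Agent.PP.C2.H97

open Pool.Agent.Helper51_AWC Pool.Agent.Helper79_WRA Pool.Agent.PP Pool.Agent.PP.KF
open Pool.Agent.PP.K9 Pool.Agent.PP.K9.H97 Pool.Agent.PP.H75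

attribute [local instance] Ideal.Quotient.field

/-- FUS -/
theorem fus (inu : InuStmt) (_exb : ExbStmt) : FusStmt := by
  intro ℓ _ M _ hM G _ _ e V γ T hI w hw w' hw' β β' hβ hβ' g hg hgβ
  have hF : GoodF ℓ (FF M) := H50.fld ℓ Fact.out M hM
  have hab := hI.comm
  have hVC' : V ≤ Cu w' := fun v hv => Subgroup.mem_centralizer_singleton_iff.2 (hab v hv w' hw')
  have hVC : V ≤ Cu w := fun v hv => Subgroup.mem_centralizer_singleton_iff.2 (hab v hv w hw)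
  have hXC : Subgroup.centralizer (V : Set G) ≤ Cu w' := fun g hg =>
    Subgroup.mem_centralizer_singleton_iff.2 (Subgroup.mem_centralizer_iff.1 hg w' hw').symm
  have hXN : Subgroup.centralizer (V : Set G) ≤ Subgroup.normalizer (V : Set G) :=
    Subgroup.centralizer_le_normalizer _
  have hVp : IsPGroup ℓ V := hI.tp.pg
  have I1 := inu ℓ (FF M) hF G e V γ T hI w hw β hβ
  have I2 := inu ℓ (FF M) hF G e V γ T hI w' hw' β' hβ'
  obtain ⟨f1, ⟨f2, -⟩, -⟩ := H69.fmg ℓ M hM (Cu w') (fun t => β' t) I2.blk _ I2.tp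
  have hext : PP.ext0 (Cu w') (fun t : Cu w' => β' t) = β' := by
    funext x
    by_cases hx : x ∈ Cu w'
    · rw [H46.ext0_of_mem _ hx]
    · rw [H46.ext0_of_not_mem _ hx, hβ'.bk.off x hx]
  have hbx := bx_of hVC' hXC hXN f2
  rw [hext] at hbx
  -- conjugation by `g`
  have hgC : ∀ x, x ∈ Cu w → g * x * g⁻¹ ∈ Cu w' := by
    intro x hx
    rw [Subgroup.mem_centralizer_singleton_iff] at hx ⊢
    rw [hg]
    calc g * x * g⁻¹ * (g * w * g⁻¹) = g * (x * w) * g⁻¹ := by group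
      _ = g * (w * x) * g⁻¹ := by rw [hx]
      _ = g * w * g⁻¹ * (g * x * g⁻¹) := by group
  have hQC : conjS g V ≤ Cu w' := by
    intro y hy
    rw [mem_conjS] at hy
    have := hgC _ (hVC hy)
    rwa [show g * (g⁻¹ * y * g) * g⁻¹ = y by group] at this
  obtain ⟨x₀, hx₀, hx₀'⟩ := I1.tp.gd
  have hx₁ := (cent_sub hVC x₀).1 hx₀
  have hQg : Gd (fun t : Cu w' => β' t) ((conjS g V).subgroupOf (Cu w')) := by
    refine ⟨⟨g * x₀ * g⁻¹, hgC _ x₀.2⟩, ?_, ?_⟩
    · rw [Subgroup.mem_centralizer_iff]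
      intro y hy
      have hy' : (y : G) ∈ conjS g V := hy
      rw [mem_conjS] at hy'
      have h3 := Subgroup.mem_centralizer_iff.1 hx₁ _ hy'
      apply Subtype.ext
      change (y : G) * (g * x₀ * g⁻¹) = g * x₀ * g⁻¹ * y
      calc (y : G) * (g * x₀ * g⁻¹) = g * ((g⁻¹ * y * g) * x₀) * g⁻¹ := by group
        _ = g * (x₀ * (g⁻¹ * y * g)) * g⁻¹ := by rw [h3]
        _ = g * x₀ * g⁻¹ * y := by group
    · change β' (g * x₀ * g⁻¹) ≠ 0
      rw [hgβ]
      exact hx₀'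
  have hQp : IsPGroup ℓ ((conjS g V).subgroupOf (Cu w')) :=
    (hVp.map (MulAut.conj g).toMonoidHom).of_equiv (Subgroup.subgroupOfEquivOfLe hQC).symm
  obtain ⟨c, hc⟩ := f1 _ hQp hQg
  -- `n₁ = c⁻¹ g` normalises `V`
  have h4 : ∀ v ∈ V, ((c : G)⁻¹ * g) * v * ((c : G)⁻¹ * g)⁻¹ ∈ V := by
    intro v hv
    have h5 : (⟨g * v * g⁻¹, hgC v (hVC hv)⟩ : Cu w') ∈ (conjS g V).subgroupOf (Cu w') := by
      change g * v * g⁻¹ ∈ conjS g V
      rw [mem_conjS, show g⁻¹ * (g * v * g⁻¹) * g = v by group]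
      exact hv
    have h6 := hc h5
    rw [mem_conjS] at h6
    have h7 : (c : G)⁻¹ * (g * v * g⁻¹) * c ∈ V := h6
    rwa [show ((c : G)⁻¹ * g) * v * ((c : G)⁻¹ * g)⁻¹ = (c : G)⁻¹ * (g * v * g⁻¹) * c by group]
  have hn : (c : G)⁻¹ * g ∈ Subgroup.normalizer (V : Set G) := by
    have h9 : conjS ((c : G)⁻¹ * g) V = V := by
      apply Subgroup.eq_of_le_of_card_ge
      · intro y hy
        rw [mem_conjS] at hy
        have := h4 _ hy
        rwa [show (c : G)⁻¹ * g * (((c : G)⁻¹ * g)⁻¹ * y * ((c : G)⁻¹ * g)) *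
          ((c : G)⁻¹ * g)⁻¹ = y by group] at this
      · exact (Nat.card_congr (V.equivMapOfInjective (MulAut.conj ((c : G)⁻¹ * g)).toMonoidHom
          (MulAut.conj ((c : G)⁻¹ * g)).injective).toEquiv).le
    rw [Subgroup.mem_normalizer_iff]
    intro v
    conv_rhs => rw [← h9]
    rw [mem_conjS, show ((c : G)⁻¹ * g)⁻¹ * ((c : G)⁻¹ * g * v * ((c : G)⁻¹ * g)⁻¹) *
      ((c : G)⁻¹ * g) = v by group]
  set n₁ := (c : G)⁻¹ * g with hn₁
  -- the conjugate of `β` is `β'`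
  have hβc : cj n₁ β = β' := by
    funext x
    change β (n₁⁻¹ * x * n₁) = β' x
    have h1 := hgβ (n₁⁻¹ * x * n₁)
    rw [← h1, show g * (n₁⁻¹ * x * n₁) * g⁻¹ = (c : G) * x * (c : G)⁻¹ by rw [hn₁]; group]
    have hB : Ix (Cu w') β' := ⟨hβ'.bk.off, hβ'.bk.blk.1⟩
    exact (cj_eq_iff (c : G) β').1 (hB.inv c.2) x
  have hγX : Bx (Subgroup.centralizer (V : Set G)) γ := ⟨hI.gam.off, hI.gam.blk⟩
  have hXn : ∀ n ∈ Subgroup.normalizer (V : Set G),
      n ∈ Subgroup.normalizer ((Subgroup.centralizer (V : Set G) : Subgroup G) : Set G) := by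
    intro n hn
    rw [Subgroup.mem_normalizer_iff]
    have key : ∀ m ∈ Subgroup.normalizer (V : Set G), ∀ x ∈ Subgroup.centralizer (V : Set G),
        m * x * m⁻¹ ∈ Subgroup.centralizer (V : Set G) := by
      intro m hm x hx
      rw [Subgroup.mem_centralizer_iff] at hx ⊢
      intro v hv
      have h2 : m⁻¹ * v * m ∈ V := by
        have := (Subgroup.mem_normalizer_iff.1 (inv_mem hm) v).1 hv
        rwa [inv_inv] at this
      have h3 := hx _ h2
      calc v * (m * x * m⁻¹) = m * ((m⁻¹ * v * m) * x) * m⁻¹ := by group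
        _ = m * (x * (m⁻¹ * v * m)) * m⁻¹ := by rw [h3]
        _ = m * x * m⁻¹ * v := by group
    intro x
    refine ⟨key n hn x, fun h => ?_⟩
    have h1 := key n⁻¹ (inv_mem hn) _ h
    rwa [show n⁻¹ * (n * x * n⁻¹) * n⁻¹⁻¹ = x by group] at h1
  have hγ1 : Bx (Subgroup.centralizer (V : Set G)) (cj n₁ γ) := hγX.cj (hXn n₁ hn)
  have hu1 : mulF (br V β') (cj n₁ γ) = cj n₁ γ := by
    have h1 := congrArg (cj n₁) hβ.und
    rw [cj_mulF] at h1
    have h2 : cj n₁ (br V β) = br V β' := by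
      rw [← hβc]
      funext x
      change br V β (n₁⁻¹ * x * n₁) = br V (cj n₁ β) x
      by_cases hx : x ∈ Subgroup.centralizer (V : Set G)
      · rw [H66.br_of_mem hx, H66.br_of_mem ((conj_mem_iff (hXn n₁ hn) x).2 hx)]
        rfl
      · rw [H66.br_of_not_mem hx,
          H66.br_of_not_mem (fun h => hx ((conj_mem_iff (hXn n₁ hn) x).1 h))]
    rw [h2] at h1
    exact h1
  have hNX : Subgroup.centralizer (V : Set G) ≤ Subgroup.normalizer (V : Set G) ⊓ Cu w' :=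
    le_inf hXN hXC
  obtain ⟨n, hnN, hnx⟩ := orb_main hNX (fun x hx => hXn x hx.1) hbx hγ1 hγX hu1 hβ'.und
  refine ⟨n * (c : G)⁻¹, (Cu w').mul_mem hnN.2 ((Cu w').inv_mem c.2), ?_⟩
  have e1 : n * (c : G)⁻¹ * g = n * n₁ := by rw [hn₁]; group
  rw [e1, hI.stb]
  refine ⟨(Subgroup.normalizer (V : Set G)).mul_mem hnN.1 hn, ?_⟩
  -- `γ = cj n (cj n₁ γ)`
  intro x
  have h1 := congrFun hnx (n * n₁ * x * (n * n₁)⁻¹)
  change γ (n * n₁ * x * (n * n₁)⁻¹) = γ (n₁⁻¹ * (n⁻¹ * (n * n₁ * x * (n * n₁)⁻¹) * n) * n₁) at h1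
  rw [show n₁⁻¹ * (n⁻¹ * (n * n₁ * x * (n * n₁)⁻¹) * n) * n₁ = x by group] at h1
  exact h1

end Pool.Agent.PP.C2.H97
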